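import Pool.Agent.R537.CR.Curv

/-! The curvature of the metric `exp(-α |F|²) ⟨dF u, dF v⟩`. -/

set_option autoImplicit false

open scoped Manifold ContDiff Topology ENNReal
open Function Module

namespace Pool.Agent.R537.CR

variable {N : ℕ} {F : Euc 4 → Euc N} {U : Set (Euc 4)}

theorem ev_line (h : Piece F U) {y : Euc 4} (hy : y ∈ U) (u : Euc 4) :
    ∀ᶠ t : ℝ in 𝓝 0, y + t • u ∈ U := by
  have hc : Continuous (fun t : ℝ => y + t • u) := by fun_prop
  have h1 : Filter.Tendsto (fun t : ℝ => y + t • u) (𝓝 0) (𝓝 y) := by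
    have := hc.tendsto 0
    simpa using this
  exact h1.eventually (h.isOpen.mem_nhds hy)

theorem diffGam (h : Piece F U) (α : ℝ) {y : Euc 4} (hy : y ∈ U) (v w : Euc 4) :
    HasFDerivAt (fun z => Gam α F z v w) (fderiv ℝ (fun z => Gam α F z v w) y) y :=
  (((smoothGam h α v w).contDiffAt (h.isOpen.mem_nhds hy)).differentiableAt
    (by simp)).hasFDerivAt

theorem inner_dGam (h : Piece F U) (α : ℝ) {y : Euc 4} (hy : y ∈ U) (u v w z : Euc 4) :
    inner ℝ (DD F y (fderiv ℝ (fun z => Gam α F z v w) y u)) (DD F y z) =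
      dlam α F y u v w z - inner ℝ (DD F y (Gam α F y v w)) (HH F y u z)
        - inner ℝ (HH F y u (Gam α F y v w)) (DD F y z) := by
  have e0 : y + (0 : ℝ) • u = y := by simp
  have h1 := line (diffGam h α hy v w) u
  have h2 := line (h.diffD hy) u
  have h3 : HasDerivAt (fun t : ℝ => DD F (y + t • u) (Gam α F (y + t • u) v w))
      (HH F y u (Gam α F y v w) + DD F y (fderiv ℝ (fun z => Gam α F z v w) y u)) 0 := by
    have h4 := h2.clm_apply h1
    simp only [e0] at h4
    exact h4
  have h5 := lin h3 (h.lD hy u z) (by rw [e0]) (by rw [e0])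
  have h6 := h.llam α hy u v w z
  have h7 : (fun t : ℝ => inner ℝ (DD F (y + t • u) (Gam α F (y + t • u) v w))
      (DD F (y + t • u) z)) =ᶠ[𝓝 0] fun t : ℝ => lam α F (y + t • u) v w z := by
    filter_upwards [ev_line h hy u] with t ht
    exact inner_Gam h α ht v w z
  have h8 := (h6.congr_of_eventuallyEq h7).unique h5
  rw [h8, inner_add_left]
  ring

/-- scalar product of the normal parts -/
noncomputable def nn (A : Euc 4 →L[ℝ] Euc N) (a b : Euc N) : ℝ := inner ℝ (nrm A a) (nrm A b)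

theorem nn_left {A : Euc 4 →L[ℝ] Euc N} (hA : Injective A) (a b : Euc N) :
    inner ℝ (nrm A a) b = nn A a b := by
  have h : b = nrm A b + A (Qop A b) := by unfold nrm; abel
  conv_lhs => rw [h]
  rw [inner_add_right, nrm_inner hA, add_zero]
  rfl

theorem nn_comm (A : Euc 4 →L[ℝ] Euc N) (a b : Euc N) : nn A a b = nn A b a :=
  real_inner_comm _ _

theorem inner_tang {A : Euc 4 →L[ℝ] Euc N} (hA : Injective A) (a b : Euc N) :
    inner ℝ (A (Qop A a)) b = inner ℝ a b - nn A a b := by
  have h : A (Qop A a) = a - nrm A a := by unfold nrm; abel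
  rw [h, inner_sub_left, nn_left hA]

theorem inner_X (h : Piece F U) (α : ℝ) {y : Euc 4} (hy : y ∈ U) (v w : Euc 4) (x : Euc N) :
    inner ℝ (DD F y (Gam α F y v w)) x =
      (inner ℝ (HH F y v w) x - nn (DD F y) (HH F y v w) x)
      + α * inner ℝ (DD F y v) (DD F y w) * (inner ℝ (F y) x - nn (DD F y) (F y) x)
      - α * inner ℝ (F y) (DD F y v) * inner ℝ (DD F y w) x
      - α * inner ℝ (F y) (DD F y w) * inner ℝ (DD F y v) x := by
  unfold Gam
  simp only [map_sub, map_smul, map_add, inner_sub_left, inner_smul_left, inner_tang (h.inj y hy),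
    inner_add_left, RCLike.conj_to_real]

/-- the Gauss equation for the conformal metric -/
theorem curv_formula (h : Piece F U) (α : ℝ) {y : Euc 4} (hy : y ∈ U) (u v : Euc 4) :
    inner ℝ (DD F y (riem (Gam α F) y u v v)) (DD F y u) =
      nn (DD F y) (HH F y u u) (HH F y v v) - nn (DD F y) (HH F y u v) (HH F y u v)
      + α * (nn (DD F y) (F y) (HH F y u u) * inner ℝ (DD F y v) (DD F y v)
        + nn (DD F y) (F y) (HH F y v v) * inner ℝ (DD F y u) (DD F y u)
        - 2 * nn (DD F y) (F y) (HH F y u v) * inner ℝ (DD F y u) (DD F y v)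
        + 2 * (inner ℝ (DD F y u) (DD F y u) * inner ℝ (DD F y v) (DD F y v)
          - inner ℝ (DD F y u) (DD F y v) ^ 2))
      + α ^ 2 * (inner ℝ (F y) (DD F y u) ^ 2 * inner ℝ (DD F y v) (DD F y v)
        + inner ℝ (F y) (DD F y v) ^ 2 * inner ℝ (DD F y u) (DD F y u)
        - 2 * inner ℝ (F y) (DD F y u) * inner ℝ (F y) (DD F y v) * inner ℝ (DD F y u) (DD F y v)
        - (inner ℝ (F y) (F y) - nn (DD F y) (F y) (F y))
          * (inner ℝ (DD F y u) (DD F y u) * inner ℝ (DD F y v) (DD F y v)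
            - inner ℝ (DD F y u) (DD F y v) ^ 2)) := by
  have hsym : HH F y v u = HH F y u v := h.symmH hy v u
  have hT : TT F y v u v = TT F y u v v := by rw [h.symmT hy v u]
  unfold riem
  simp only [map_sub, map_add, inner_sub_left, inner_add_left, inner_dGam h α hy,
    inner_Gam h α hy]
  unfold lam dlam
  rw [hsym, hT]
  have c1 : ∀ x : Euc N, inner ℝ x (DD F y (Gam α F y v v)) =
    inner ℝ (DD F y (Gam α F y v v)) x := fun x => real_inner_comm _ _
  have c2 : ∀ x : Euc N, inner ℝ x (DD F y (Gam α F y u v)) =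
    inner ℝ (DD F y (Gam α F y u v)) x := fun x => real_inner_comm _ _
  simp only [c1, c2, inner_X h α hy]
  have d1 : inner ℝ (DD F y v) (DD F y u) = inner ℝ (DD F y u) (DD F y v) := real_inner_comm _ _
  have d2 : inner ℝ (DD F y u) (F y) = inner ℝ (F y) (DD F y u) := real_inner_comm _ _
  have d3 : inner ℝ (DD F y v) (F y) = inner ℝ (F y) (DD F y v) := real_inner_comm _ _
  have d4 : inner ℝ (HH F y v v) (HH F y u u) = inner ℝ (HH F y u u) (HH F y v v) :=
    real_inner_comm _ _
  have d5 : ∀ a b c, inner ℝ (HH F y a b) (DD F y c) = inner ℝ (DD F y c) (HH F y a b) :=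
    fun _ _ _ => real_inner_comm _ _
  have d6 : ∀ a b, inner ℝ (HH F y a b) (F y) = inner ℝ (F y) (HH F y a b) :=
    fun _ _ => real_inner_comm _ _
  have n1 : nn (DD F y) (HH F y v v) (HH F y u u) = nn (DD F y) (HH F y u u) (HH F y v v) :=
    nn_comm _ _ _
  have n2 : ∀ a b, nn (DD F y) (HH F y a b) (F y) = nn (DD F y) (F y) (HH F y a b) :=
    fun _ _ => nn_comm _ _ _
  have n3 : ∀ x c, nn (DD F y) x (DD F y c) = 0 := fun x c => by
    rw [← nn_left (h.inj y hy), nrm_inner (h.inj y hy)]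
  simp only [d1, d2, d3, d4, d5, d6, n1, n2, n3]
  ring

end Pool.Agent.R537.CR
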