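import Mathlib

/-!
# Immersions with small normal curvature and a conformal Ricci condition: definitions
-/

set_option autoImplicit false

open scoped Manifold ContDiff Topology ENNReal

namespace Pool.Agent.R537.CR

/-! ### Curvature of a metric given in coordinates -/

section

variable {E : Type*} [NormedAddCommGroup E] [NormedSpace ℝ E]

/-- `Γ` is the Levi-Civita connection of the metric `G` on the open set `U` of `E`: here
`G y u v` is the scalar product at `y` of the coordinate vectors `u`, `v`, and `Γ y u v` is the
covariant derivative `∇_u v` at `y` of the constant vector field `v` in the direction `u`. It is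
characterised by the Koszul formula
`2 G(∇_u v, w) = ∂_u G(v, w) + ∂_v G(u, w) - ∂_w G(u, v)`. -/
def IsLeviCivita (G : E → E → E → ℝ) (Γ : E → E → E → E) (U : Set E) : Prop :=
  (∀ u v, ContDiffOn ℝ ∞ (fun y => Γ y u v) U) ∧
  ∀ y ∈ U, ∀ u v w, 2 * G y (Γ y u v) w =
    fderiv ℝ (fun z => G z v w) y u + fderiv ℝ (fun z => G z u w) y v
      - fderiv ℝ (fun z => G z u v) y w

/-- The curvature tensor `R(u, v) w = ∇_u ∇_v w - ∇_v ∇_u w` on constant vector fields. -/
noncomputable def riem (Γ : E → E → E → E) (y u v w : E) : E :=
  fderiv ℝ (fun z => Γ z v w) y u - fderiv ℝ (fun z => Γ z u w) y v + Γ y u (Γ y v w)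
    - Γ y v (Γ y u w)

/-- `b` is an orthonormal family at `y` for the metric `G`; in dimension `n` it is an orthonormal
frame. -/
def IsFrame {n : ℕ} (G : E → E → E → ℝ) (y : E) (b : Fin n → E) : Prop :=
  ∀ i j, G y (b i) (b j) = if i = j then 1 else 0

/-- The Ricci curvature `Ric(u, v) = ∑_i G(R(b_i, u) v, b_i)`, computed in the orthonormal
frame `b`. -/
noncomputable def ricci {n : ℕ} (G : E → E → E → ℝ) (Γ : E → E → E → E) (y : E)
    (b : Fin n → E) (u v : E) : ℝ :=
  ∑ i, G y (riem Γ y (b i) u v) (b i)

/-- The scalar curvature `∑_j Ric(b_j, b_j)`, computed in the orthonormal frame `b`. -/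
noncomputable def scal {n : ℕ} (G : E → E → E → ℝ) (Γ : E → E → E → E) (y : E)
    (b : Fin n → E) : ℝ :=
  ∑ j, ricci G Γ y b (b j) (b j)

end

/-! ### Metrics on a manifold modelled on `E` -/

section

variable {E : Type*} [NormedAddCommGroup E] [NormedSpace ℝ E] {X : Type*} [TopologicalSpace X]
  [ChartedSpace E X]

/-- A field of scalar products on the tangent spaces of `X`. -/
abbrev MetricField (E : Type*) [NormedAddCommGroup E] [NormedSpace ℝ E] (X : Type*)
    [TopologicalSpace X] [ChartedSpace E X] : Type _ :=
  (x : X) → TangentSpace 𝓘(ℝ, E) x → TangentSpace 𝓘(ℝ, E) x → ℝ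

omit [ChartedSpace E X] [NormedSpace ℝ E] in
/-- The inverse of the chart `e`: `param e y` is the point with coordinates `y`. -/
noncomputable def param (e : OpenPartialHomeomorph X E) : E → X := e.symm

/-- The coordinate vector `∂_u` at the point with coordinates `y` in the chart `e`. -/
noncomputable def tvec (e : OpenPartialHomeomorph X E) (y u : E) :
    TangentSpace 𝓘(ℝ, E) (param e y) :=
  mfderiv 𝓘(ℝ, E) 𝓘(ℝ, E) (param e) y u

/-- The metric `h` in the chart `e`: the scalar product of the coordinate vectors `u`, `v` at the
point with coordinates `y`. -/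
noncomputable def inChart (h : MetricField E X) (e : OpenPartialHomeomorph X E) (y u v : E) : ℝ :=
  h (param e y) (tvec e y u) (tvec e y v)

/-- Condition (R) for the metric `h` on a 4-manifold: at every point, `2 Ric(b_4, b_4) < scal` for
every orthonormal frame `b_1, …, b_4` (so `2 Ric(u, u) < scal` for every unit tangent vector `u`).
The curvature is computed in an arbitrary smooth chart around the point. -/
def ConditionR (h : MetricField E X) : Prop :=
  ∀ e ∈ IsManifold.maximalAtlas 𝓘(ℝ, E) ∞ X, ∃ Γ, IsLeviCivita (inChart h e) Γ e.target ∧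
    ∀ y ∈ e.target, ∀ b : Fin 4 → E, IsFrame (inChart h e) y b →
      2 * ricci (inChart h e) Γ y b (b 3) (b 3) < scal (inChart h e) Γ y b

/-- The conformal metric `exp(2 ψ) h`. -/
noncomputable def conformal (ψ : X → ℝ) (h : MetricField E X) : MetricField E X := fun x u v =>
  Real.exp (2 * ψ x) * h x u v

variable {V : Type*} [NormedAddCommGroup V] [InnerProductSpace ℝ V]

/-- The differential of the map `f` to the vector space `V`. -/
noncomputable def differential (f : X → V) (x : X) : E →L[ℝ] V :=
  mfderiv 𝓘(ℝ, E) 𝓘(ℝ, V) f x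

/-- The metric induced by the map `f` to a Euclidean space. -/
noncomputable def inducedMetric (f : X → V) : MetricField E X := fun x u v =>
  inner ℝ (differential (E := E) f x u) (differential (E := E) f x v)

/-- `f` is a smooth immersion into the closed unit ball of `V`. -/
structure IsImmersionInBall (E : Type*) [NormedAddCommGroup E] [NormedSpace ℝ E] {X : Type*}
    [TopologicalSpace X] [ChartedSpace E X] {V : Type*} [NormedAddCommGroup V]
    [InnerProductSpace ℝ V] (f : X → V) : Prop where
  smooth : ContMDiff 𝓘(ℝ, E) 𝓘(ℝ, V) ∞ f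
  immersion : ∀ x, Function.Injective (differential (E := E) f x)
  norm_le : ∀ x, ‖f x‖ ≤ 1

variable [FiniteDimensional ℝ E]

omit [FiniteDimensional ℝ E] in
/-- The second derivative of a map `F` between vector spaces. -/
noncomputable def second (F : E → V) (y : E) : E →L[ℝ] E →L[ℝ] V := fderiv ℝ (fderiv ℝ F) y

/-- The component of the vector `w` orthogonal to the range of `A`. -/
noncomputable def normalPart (A : E →L[ℝ] V) (w : V) : V := (A.range)ᗮ.starProjection w

/-- The second fundamental form `A(u, v)` of the immersion `f`, in the chart `e` at the point with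
coordinates `y`: the component orthogonal to the tangent space of the second derivative of `f` in
the chart. -/
noncomputable def secondFund (f : X → V) (e : OpenPartialHomeomorph X E) (y u v : E) : V :=
  normalPart (fderiv ℝ (f ∘ param e) y) (second (f ∘ param e) y u v)

/-- The maximal normal curvature `sup |A(u, u)|` over all unit tangent vectors `u`. -/
noncomputable def normalCurvature (E : Type*) [NormedAddCommGroup E] [NormedSpace ℝ E]
    [FiniteDimensional ℝ E] {X : Type*} [TopologicalSpace X] [ChartedSpace E X] {V : Type*}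
    [NormedAddCommGroup V] [InnerProductSpace ℝ V] (f : X → V) : ℝ≥0∞ :=
  ⨆ (e ∈ IsManifold.maximalAtlas 𝓘(ℝ, E) ∞ X) (y ∈ e.target) (u : E)
    (_ : ‖fderiv ℝ (f ∘ param e) y u‖ = 1), ‖secondFund f e y u u‖ₑ

end

/-- Euclidean space `ℝⁿ`. -/
abbrev Euc (n : ℕ) : Type := EuclideanSpace ℝ (Fin n)

end Pool.Agent.R537.CR
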