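import Pool.Agent.R537.CR.Curv2

/-! The connection `Gam` is the Levi-Civita connection, and the local form of condition (R). -/

set_option autoImplicit false

open scoped Manifold ContDiff Topology ENNReal
open Function Module

namespace Pool.Agent.R537.CR

variable {N : ℕ} {F : Euc 4 → Euc N} {U : Set (Euc 4)}

theorem fderiv_Gm (h : Piece F U) (α : ℝ) {y : Euc 4} (hy : y ∈ U) (u v w : Euc 4) :
    fderiv ℝ (fun z => Gm α F z v w) y u =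
      Real.exp (-α * inner ℝ (F y) (F y)) *
        (-2 * α * inner ℝ (F y) (DD F y u) * inner ℝ (DD F y v) (DD F y w)
          + inner ℝ (HH F y u v) (DD F y w) + inner ℝ (DD F y v) (HH F y u w)) := by
  have hF : DifferentiableAt ℝ F y := (h.diffF hy).differentiableAt
  have hD : DifferentiableAt ℝ (DD F) y := (h.diffD hy).differentiableAt
  have hDv : ∀ v, DifferentiableAt ℝ (fun z => DD F z v) y := fun v =>
    hD.clm_apply (differentiableAt_const v)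
  have hG : DifferentiableAt ℝ (fun z => Gm α F z v w) y := by
    unfold Gm
    exact (((hF.inner ℝ hF).const_mul (-α)).exp).mul ((hDv v).inner ℝ (hDv w))
  have h1 := line hG.hasFDerivAt u
  refine h1.unique ?_
  have e0 : y + (0 : ℝ) • u = y := by simp
  have i1 := lin (h.lF hy u) (h.lF hy u) (by rw [e0]) (by rw [e0])
  have i2 := lin (h.lD hy u v) (h.lD hy u w) (by rw [e0]) (by rw [e0])
  unfold Gm
  refine (((i1.const_mul (-α)).exp).mul i2).congr_deriv ?_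
  simp only [e0]
  rw [real_inner_comm (F y) (DD F y u)]
  ring

theorem leviCivita_Gm (h : Piece F U) (α : ℝ) : IsLeviCivita (Gm α F) (Gam α F) U := by
  refine ⟨fun u v => smoothGam h α u v, fun y hy u v w => ?_⟩
  rw [fderiv_Gm h α hy, fderiv_Gm h α hy, fderiv_Gm h α hy]
  unfold Gm
  rw [inner_Gam h α hy]
  unfold lam
  rw [h.symmH hy v u, h.symmH hy w u, h.symmH hy w v,
    real_inner_comm (DD F y w) (HH F y u v),
    real_inner_comm (DD F y v) (HH F y u w)]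
  ring

theorem IsLeviCivita.congr {G G' : Euc 4 → Euc 4 → Euc 4 → ℝ} {Γ : Euc 4 → Euc 4 → Euc 4 → Euc 4}
    (hU : IsOpen U) (h : IsLeviCivita G Γ U) (he : ∀ y ∈ U, ∀ u v, G' y u v = G y u v) :
    IsLeviCivita G' Γ U := by
  refine ⟨h.1, fun y hy u v w => ?_⟩
  have h1 : ∀ v w, fderiv ℝ (fun z => G' z v w) y = fderiv ℝ (fun z => G z v w) y := by
    intro v w
    apply Filter.EventuallyEq.fderiv_eq
    filter_upwards [hU.mem_nhds hy] with z hz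
    exact he z hz v w
  rw [he y hy, h1, h1, h1]
  exact h.2 y hy u v w

/-- the pointwise inequality -/
theorem alg {a0 a1 a2 m01 m02 m12 n : Euc N} {c t τ r2 la : ℝ} (hc : c ^ 2 < 9 / 5) (ht : 0 < t)
    (h0 : ‖a0‖ ^ 2 ≤ (c * t) ^ 2) (h1 : ‖a1‖ ^ 2 ≤ (c * t) ^ 2) (h2 : ‖a2‖ ^ 2 ≤ (c * t) ^ 2)
    (p1 : ‖(a0 + a1 + a2 + (2 : ℝ) • m01) + ((2 : ℝ) • m02 + (2 : ℝ) • m12)‖ ^ 2 ≤
      (3 * c * t) ^ 2)
    (p2 : ‖(a0 + a1 + a2 + (2 : ℝ) • m01) - ((2 : ℝ) • m02 + (2 : ℝ) • m12)‖ ^ 2 ≤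
      (3 * c * t) ^ 2)
    (p3 : ‖(a0 + a1 + a2 - (2 : ℝ) • m01) + ((2 : ℝ) • m02 - (2 : ℝ) • m12)‖ ^ 2 ≤
      (3 * c * t) ^ 2)
    (p4 : ‖(a0 + a1 + a2 - (2 : ℝ) • m01) - ((2 : ℝ) • m02 - (2 : ℝ) • m12)‖ ^ 2 ≤
      (3 * c * t) ^ 2)
    (hn : ‖n‖ ^ 2 = r2 - τ) (hτ : τ ≤ 4 / 5 * (1 - r2)) (hla : 0 ≤ la) :
    0 < (inner ℝ a0 a1 - ‖m01‖ ^ 2) + (inner ℝ a0 a2 - ‖m02‖ ^ 2) + (inner ℝ a1 a2 - ‖m12‖ ^ 2)
      + 9 / 4 * (2 * t * inner ℝ n (a0 + a1 + a2) + 6 * t ^ 2)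
      + 81 / 16 * (2 * t * la - 3 * τ * t ^ 2) := by
  have q1 := parallelogram_law_with_norm ℝ (a0 + a1 + a2 + (2 : ℝ) • m01)
    ((2 : ℝ) • m02 + (2 : ℝ) • m12)
  have q2 := parallelogram_law_with_norm ℝ (a0 + a1 + a2 - (2 : ℝ) • m01)
    ((2 : ℝ) • m02 - (2 : ℝ) • m12)
  have q3 := parallelogram_law_with_norm ℝ (a0 + a1 + a2) ((2 : ℝ) • m01)
  have q4 := parallelogram_law_with_norm ℝ ((2 : ℝ) • m02) ((2 : ℝ) • m12)
  have s1 : ‖(2 : ℝ) • m01‖ = 2 * ‖m01‖ := by rw [norm_smul]; simp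
  have s2 : ‖(2 : ℝ) • m02‖ = 2 * ‖m02‖ := by rw [norm_smul]; simp
  have s3 : ‖(2 : ℝ) • m12‖ = 2 * ‖m12‖ := by rw [norm_smul]; simp
  rw [s1] at q3
  rw [s2, s3] at q4
  have hH : ‖a0 + a1 + a2‖ ^ 2 = ‖a0‖ ^ 2 + ‖a1‖ ^ 2 + ‖a2‖ ^ 2
      + 2 * (inner ℝ a0 a1 + inner ℝ a0 a2 + inner ℝ a1 a2) := by
    rw [norm_add_sq_real, norm_add_sq_real, inner_add_left]
    ring
  have hsq : 0 ≤ ‖(a0 + a1 + a2) + (3 * t) • n‖ ^ 2 := sq_nonneg _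
  rw [norm_add_sq_real (a0 + a1 + a2) ((3 * t) • n), inner_smul_right, norm_smul,
    real_inner_comm] at hsq
  have hnt : (‖(3 * t : ℝ)‖ * ‖n‖) ^ 2 = 9 * t ^ 2 * (r2 - τ) := by
    rw [mul_pow, hn, Real.norm_eq_abs, sq_abs]
    ring
  rw [hnt] at hsq
  have hkey : ‖a0 + a1 + a2‖ ^ 2 + 4 * (‖m01‖ ^ 2 + ‖m02‖ ^ 2 + ‖m12‖ ^ 2) ≤ 9 * (c * t) ^ 2 := by
    linarith [q1, q2, q3, q4, p1, p2, p3, p4]
  have ht2 : 0 < t ^ 2 := by positivity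
  have hfin : 0 < t ^ 2 * (27 / 4 - 15 / 4 * c ^ 2) := mul_pos ht2 (by linarith)
  have hfin2 : 0 ≤ t ^ 2 * (27 / 4 * (1 - r2) - 135 / 16 * τ) :=
    mul_nonneg ht2.le (by linarith)
  have hla2 : 0 ≤ t * la := mul_nonneg ht.le hla
  linarith [hfin, hfin2, hla2, hsq, hkey, hH, h0, h1, h2]

end Pool.Agent.R537.CR
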