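import Pool.Agent.R537.CR.Kos

/-! The local form of condition (R). -/

set_option autoImplicit false

open scoped Manifold ContDiff Topology ENNReal
open Function Module

namespace Pool.Agent.R537.CR

variable {N : ℕ} {F : Euc 4 → Euc N} {U : Set (Euc 4)}

/-- `nrm` as a linear map -/
noncomputable def nrmL (A : Euc 4 →L[ℝ] Euc N) : Euc N →L[ℝ] Euc N :=
  ContinuousLinearMap.id ℝ (Euc N) - A.comp (Qop A)

theorem nrmL_apply (A : Euc 4 →L[ℝ] Euc N) (v : Euc N) : nrmL A v = nrm A v := rfl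

theorem nrm_add (A : Euc 4 →L[ℝ] Euc N) (v w : Euc N) : nrm A (v + w) = nrm A v + nrm A w := by
  rw [← nrmL_apply, map_add, nrmL_apply, nrmL_apply]

theorem nrm_smul (A : Euc 4 →L[ℝ] Euc N) (s : ℝ) (v : Euc N) : nrm A (s • v) = s • nrm A v := by
  rw [← nrmL_apply, map_smul, nrmL_apply]

theorem dir_bound (h : Piece F U) {y : Euc 4} (hy : y ∈ U) {c t : ℝ}
    (hb : ∀ u, ‖nrm (DD F y) (HH F y u u)‖ ≤ c * ‖DD F y u‖ ^ 2) {b : Fin 4 → Euc 4}
    (hfr : ∀ i j, inner ℝ (DD F y (b i)) (DD F y (b j)) = if i = j then t else 0)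
    (s0 s1 s2 : ℝ) :
    ‖s0 ^ 2 • nrm (DD F y) (HH F y (b 0) (b 0)) + s1 ^ 2 • nrm (DD F y) (HH F y (b 1) (b 1))
      + s2 ^ 2 • nrm (DD F y) (HH F y (b 2) (b 2))
      + (2 * s0 * s1) • nrm (DD F y) (HH F y (b 0) (b 1))
      + (2 * s0 * s2) • nrm (DD F y) (HH F y (b 0) (b 2))
      + (2 * s1 * s2) • nrm (DD F y) (HH F y (b 1) (b 2))‖ ^ 2
      ≤ (c * ((s0 ^ 2 + s1 ^ 2 + s2 ^ 2) * t)) ^ 2 := by
  have h1 := hb (s0 • b 0 + s1 • b 1 + s2 • b 2)
  have h2 : ‖DD F y (s0 • b 0 + s1 • b 1 + s2 • b 2)‖ ^ 2 = (s0 ^ 2 + s1 ^ 2 + s2 ^ 2) * t := by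
    rw [← real_inner_self_eq_norm_sq]
    simp only [map_add, map_smul, inner_add_left, inner_add_right, inner_smul_left,
      inner_smul_right, RCLike.conj_to_real, hfr]
    simp
    ring
  rw [h2] at h1
  have h3 : nrm (DD F y) (HH F y (s0 • b 0 + s1 • b 1 + s2 • b 2)
      (s0 • b 0 + s1 • b 1 + s2 • b 2)) =
      s0 ^ 2 • nrm (DD F y) (HH F y (b 0) (b 0)) + s1 ^ 2 • nrm (DD F y) (HH F y (b 1) (b 1))
      + s2 ^ 2 • nrm (DD F y) (HH F y (b 2) (b 2))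
      + (2 * s0 * s1) • nrm (DD F y) (HH F y (b 0) (b 1))
      + (2 * s0 * s2) • nrm (DD F y) (HH F y (b 0) (b 2))
      + (2 * s1 * s2) • nrm (DD F y) (HH F y (b 1) (b 2)) := by
    simp only [map_add, map_smul, add_apply, smul_apply, nrm_add, nrm_smul, h.symmH hy (b 1) (b 0),
      h.symmH hy (b 2) (b 0), h.symmH hy (b 2) (b 1)]
    module
  rw [h3] at h1
  exact pow_le_pow_left₀ (norm_nonneg _) h1 2

/-- the curvature of a pair of frame vectors -/
theorem curv_pair (h : Piece F U) {y : Euc 4} (hy : y ∈ U) {t : ℝ} {b : Fin 4 → Euc 4}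
    (hfr : ∀ i j, inner ℝ (DD F y (b i)) (DD F y (b j)) = if i = j then t else 0)
    (α : ℝ) (i j : Fin 4) :
    inner ℝ (DD F y (riem (Gam α F) y (b i) (b j) (b j))) (DD F y (b i)) =
      if i = j then 0 else
      (inner ℝ (nrm (DD F y) (HH F y (b i) (b i))) (nrm (DD F y) (HH F y (b j) (b j)))
        - ‖nrm (DD F y) (HH F y (b i) (b j))‖ ^ 2)
      + α * (t * inner ℝ (nrm (DD F y) (F y)) (nrm (DD F y) (HH F y (b i) (b i)))
        + t * inner ℝ (nrm (DD F y) (F y)) (nrm (DD F y) (HH F y (b j) (b j))) + 2 * t ^ 2)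
      + α ^ 2 * (t * inner ℝ (F y) (DD F y (b i)) ^ 2 + t * inner ℝ (F y) (DD F y (b j)) ^ 2
        - (‖F y‖ ^ 2 - ‖nrm (DD F y) (F y)‖ ^ 2) * t ^ 2) := by
  rw [curv_formula h α hy]
  unfold nn
  simp only [hfr, ← real_inner_self_eq_norm_sq]
  by_cases hij : i = j
  · subst hij
    simp
    ring
  · simp [hij]
    ring

theorem curv_symm (h : Piece F U) {y : Euc 4} (hy : y ∈ U) {t : ℝ} {b : Fin 4 → Euc 4}
    (hfr : ∀ i j, inner ℝ (DD F y (b i)) (DD F y (b j)) = if i = j then t else 0)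
    (α : ℝ) (i j : Fin 4) :
    inner ℝ (DD F y (riem (Gam α F) y (b i) (b j) (b j))) (DD F y (b i)) =
      inner ℝ (DD F y (riem (Gam α F) y (b j) (b i) (b i))) (DD F y (b j)) := by
  rw [curv_pair h hy hfr, curv_pair h hy hfr]
  by_cases hij : i = j
  · subst hij; rfl
  · rw [if_neg hij, if_neg (Ne.symm hij), h.symmH hy (b j) (b i),
      real_inner_comm (nrm (DD F y) (HH F y (b j) (b j))) (nrm (DD F y) (HH F y (b i) (b i)))]
    ring

theorem condR_local (h : Piece F U) {y : Euc 4} (hy : y ∈ U) {c : ℝ}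
    (hb : ∀ u, ‖nrm (DD F y) (HH F y u u)‖ ≤ c * ‖DD F y u‖ ^ 2) (hc : c ^ 2 < 9 / 5)
    (hτ : ‖F y‖ ^ 2 - ‖nrm (DD F y) (F y)‖ ^ 2 ≤ 4 / 5 * (1 - ‖F y‖ ^ 2))
    {G : Euc 4 → Euc 4 → Euc 4 → ℝ} (hG : ∀ u v, G y u v = Gm (9 / 4) F y u v)
    {b : Fin 4 → Euc 4} (hfr : IsFrame G y b) :
    2 * ricci G (Gam (9 / 4) F) y b (b 3) (b 3) < scal G (Gam (9 / 4) F) y b := by
  set φ := Real.exp (-(9 / 4) * inner ℝ (F y) (F y)) with hφ
  have hφpos : 0 < φ := Real.exp_pos _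
  have hGi : ∀ u v, G y u v = φ * inner ℝ (DD F y u) (DD F y v) := hG
  set t := φ⁻¹ with ht
  have htpos : 0 < t := inv_pos.2 hφpos
  have hfr2 : ∀ i j, inner ℝ (DD F y (b i)) (DD F y (b j)) = if i = j then t else 0 := by
    intro i j
    have h1 := hfr i j
    rw [hGi] at h1
    have h2 : inner ℝ (DD F y (b i)) (DD F y (b j)) = t * (if i = j then (1 : ℝ) else 0) := by
      rw [← h1, ← mul_assoc, ht, inv_mul_cancel₀ hφpos.ne', one_mul]
    rw [h2]
    split_ifs <;> simp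
  have hdiag : ∀ i, inner ℝ (DD F y (riem (Gam (9 / 4) F) y (b i) (b i) (b i)))
      (DD F y (b i)) = 0 := by
    intro i
    rw [curv_pair h hy hfr2, if_pos rfl]
  have hs := curv_symm h hy hfr2 (9 / 4)
  have hmain : 0 < inner ℝ (DD F y (riem (Gam (9 / 4) F) y (b 0) (b 1) (b 1))) (DD F y (b 0))
      + inner ℝ (DD F y (riem (Gam (9 / 4) F) y (b 0) (b 2) (b 2))) (DD F y (b 0))
      + inner ℝ (DD F y (riem (Gam (9 / 4) F) y (b 1) (b 2) (b 2))) (DD F y (b 1)) := by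
    rw [curv_pair h hy hfr2, curv_pair h hy hfr2, curv_pair h hy hfr2, if_neg (by decide),
      if_neg (by decide), if_neg (by decide)]
    have d := dir_bound h hy hb hfr2
    have h0 := d 1 0 0
    have h1 := d 0 1 0
    have h2 := d 0 0 1
    have p1 := d 1 1 1
    have p2 := d 1 1 (-1)
    have p3 := d 1 (-1) 1
    have p4 := d (-1) 1 1
    have hla : 0 ≤ inner ℝ (F y) (DD F y (b 0)) ^ 2 + inner ℝ (F y) (DD F y (b 1)) ^ 2
      + inner ℝ (F y) (DD F y (b 2)) ^ 2 := by positivity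
    have key := alg (a0 := nrm (DD F y) (HH F y (b 0) (b 0)))
      (a1 := nrm (DD F y) (HH F y (b 1) (b 1))) (a2 := nrm (DD F y) (HH F y (b 2) (b 2)))
      (m01 := nrm (DD F y) (HH F y (b 0) (b 1))) (m02 := nrm (DD F y) (HH F y (b 0) (b 2)))
      (m12 := nrm (DD F y) (HH F y (b 1) (b 2))) (n := nrm (DD F y) (F y)) (c := c) (t := t)
      (τ := ‖F y‖ ^ 2 - ‖nrm (DD F y) (F y)‖ ^ 2) (r2 := ‖F y‖ ^ 2) hc htpos
      (by convert h0 using 3 <;> [module; ring])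
      (by convert h1 using 3 <;> [module; ring])
      (by convert h2 using 3 <;> [module; ring])
      (le_of_eq_of_le (congrArg (fun x => ‖x‖ ^ 2) (by module)) (p1.trans_eq (by ring)))
      (le_of_eq_of_le (congrArg (fun x => ‖x‖ ^ 2) (by module)) (p2.trans_eq (by ring)))
      (le_of_eq_of_le (congrArg (fun x => ‖x‖ ^ 2) (by module)) (p3.trans_eq (by ring)))
      (le_of_eq_of_le (congrArg (fun x => ‖x‖ ^ 2) (by module)) (p4.trans_eq (by ring)))
      (by ring) hτ hla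
    rw [inner_add_right, inner_add_right] at key
    linarith [key]
  unfold scal ricci
  simp only [Fin.sum_univ_four, hGi]
  rw [hdiag 0, hdiag 1, hdiag 2, hdiag 3, hs 1 0, hs 2 0, hs 2 1, hs 3 0, hs 3 1, hs 3 2]
  have := mul_pos hφpos hmain
  linarith

end Pool.Agent.R537.CR
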