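import Pool.Agent.R537.CR.Loc

/-! The maximum principle for `|x^T|² + (4/5) |x|²`. -/

set_option autoImplicit false

open scoped Manifold ContDiff Topology ENNReal
open Function Module

namespace Pool.Agent.R537.CR

variable {N : ℕ} {F : Euc 4 → Euc N} {U : Set (Euc 4)}

/-- the function `|x^T|² + (4/5) |x|²` -/
noncomputable def Phi (A : Euc 4 →L[ℝ] Euc N) (x : Euc N) : ℝ :=
  ‖x‖ ^ 2 - ‖nrm A x‖ ^ 2 + 4 / 5 * ‖x‖ ^ 2

theorem norm_nrm_le {A : Euc 4 →L[ℝ] Euc N} (hA : Injective A) (x : Euc N) (v : Euc 4) :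
    ‖nrm A x‖ ^ 2 ≤ ‖x - A v‖ ^ 2 := by
  have h1 : x - A v = nrm A x + A (Qop A x - v) := by
    rw [map_sub]; unfold nrm; abel
  rw [h1, norm_add_sq_real, nrm_inner hA]
  nlinarith [sq_nonneg ‖A (Qop A x - v)‖]

theorem max_local (h : Piece F U) {y : Euc 4} (hy : y ∈ U) {c : ℝ}
    (hb : ∀ u, ‖nrm (DD F y) (HH F y u u)‖ ≤ c * ‖DD F y u‖ ^ 2) (hc : c < 9 / 5)
    (hF1 : ‖F y‖ ≤ 1)
    (hmax : ∀ᶠ z in 𝓝 y, Phi (DD F z) (F z) ≤ Phi (DD F y) (F y)) :
    Phi (DD F y) (F y) ≤ 4 / 5 := by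
  have hA := h.inj y hy
  set v := Qop (DD F y) (F y) with hv
  have e0 : y + (0 : ℝ) • v = y := by simp
  have hDv : DD F y v = F y - nrm (DD F y) (F y) := by unfold nrm; rw [← hv]; abel
  have i1 := lin (h.lF hy v) (h.lD hy v v) (by rw [e0]) (by rw [e0])
  have i2 := lin (h.lD hy v v) (h.lD hy v v) (by rw [e0]) (by rw [e0])
  have i3 := lin (h.lF hy v) (h.lF hy v) (by rw [e0]) (by rw [e0])
  have hder := ((i1.const_mul 2).sub i2).add (i3.const_mul (4 / 5))
  have hle : ∀ z ∈ U, 2 * inner ℝ (F z) (DD F z v) - inner ℝ (DD F z v) (DD F z v)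
      + 4 / 5 * inner ℝ (F z) (F z) ≤ Phi (DD F z) (F z) := by
    intro z hz
    have h1 := norm_nrm_le (h.inj z hz) (F z) v
    rw [norm_sub_sq_real] at h1
    unfold Phi
    rw [real_inner_self_eq_norm_sq, real_inner_self_eq_norm_sq]
    linarith
  have heq : 2 * inner ℝ (F y) (DD F y v) - inner ℝ (DD F y v) (DD F y v)
      + 4 / 5 * inner ℝ (F y) (F y) = Phi (DD F y) (F y) := by
    have h1 : ‖nrm (DD F y) (F y)‖ ^ 2 = ‖F y - DD F y v‖ ^ 2 := by
      rw [hDv, sub_sub_cancel]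
    rw [norm_sub_sq_real] at h1
    unfold Phi
    rw [real_inner_self_eq_norm_sq, real_inner_self_eq_norm_sq]
    linarith
  have htend : Filter.Tendsto (fun t : ℝ => y + t • v) (𝓝 0) (𝓝 y) := by
    have hc : Continuous (fun t : ℝ => y + t • v) := by fun_prop
    have := hc.tendsto 0
    simpa using this
  have hlm : IsLocalMax (fun t : ℝ => 2 * inner ℝ (F (y + t • v)) (DD F (y + t • v) v)
      - inner ℝ (DD F (y + t • v) v) (DD F (y + t • v) v)
      + 4 / 5 * inner ℝ (F (y + t • v)) (F (y + t • v))) 0 := by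
    filter_upwards [ev_line h hy v, htend.eventually hmax] with t ht1 ht2
    simp only [e0]
    rw [heq]
    exact (hle _ ht1).trans ht2
  have hz := hlm.hasDerivAt_eq_zero hder
  have hort : inner ℝ (nrm (DD F y) (F y)) (DD F y v) = 0 := nrm_inner hA _ _
  have hself : inner ℝ (DD F y v) (DD F y v) = ‖DD F y v‖ ^ 2 := real_inner_self_eq_norm_sq _
  have hFD : inner ℝ (F y) (DD F y v) = ‖DD F y v‖ ^ 2 := by
    have h1 : F y = nrm (DD F y) (F y) + DD F y v := by rw [hDv]; abel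
    conv_lhs => rw [h1]
    rw [inner_add_left, hort, hself, zero_add]
  have hFH : inner ℝ (F y) (HH F y v v) - inner ℝ (DD F y v) (HH F y v v) =
      inner ℝ (nrm (DD F y) (F y)) (nrm (DD F y) (HH F y v v)) := by
    rw [← inner_sub_left, hDv, sub_sub_cancel]
    exact nn_left hA _ _
  have hn1 : ‖nrm (DD F y) (F y)‖ ≤ 1 := by
    have h1 := norm_nrm_le hA (F y) 0
    rw [map_zero, sub_zero] at h1
    exact (abs_le_of_sq_le_sq' (by nlinarith [norm_nonneg (F y)]) zero_le_one).2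
  have hcs := abs_le.1 (abs_real_inner_le_norm (nrm (DD F y) (F y))
    (nrm (DD F y) (HH F y v v)))
  have hprod : ‖nrm (DD F y) (F y)‖ * ‖nrm (DD F y) (HH F y v v)‖ ≤ c * ‖DD F y v‖ ^ 2 := by
    calc _ ≤ 1 * (c * ‖DD F y v‖ ^ 2) :=
          mul_le_mul hn1 (hb v) (norm_nonneg _) zero_le_one
      _ = _ := one_mul _
  rw [hself, hFD, real_inner_comm (F y) (DD F y v), hFD,
    real_inner_comm (DD F y v) (HH F y v v)] at hz
  have hτ : (9 / 5 - c) * ‖DD F y v‖ ^ 2 ≤ 0 := by linarith [hcs.1]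
  have hτ0 : ‖DD F y v‖ ^ 2 ≤ 0 := by
    by_contra hcon
    push Not at hcon
    have := mul_pos (sub_pos.2 hc) hcon
    linarith
  rw [← heq, hself, hFD, real_inner_self_eq_norm_sq]
  have hF2 : ‖F y‖ ^ 2 ≤ 1 := by
    have := norm_nonneg (F y)
    nlinarith
  nlinarith [sq_nonneg ‖DD F y v‖]

end Pool.Agent.R537.CR
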